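import Pool.Agent.Run7.h934.AD.LeafMan

/-!
# MP_610fe3_an: transitivity and the closures of the stable leaves
-/

set_option autoImplicit false

open scoped Manifold ContDiff Topology
open Set Filter

namespace Pool.Agent.Results.MP_610fe3_an.LeafClosures

open Pool.Agent.H721R2 Pool.Agent.H789R2.AN

/-- The stable set of `x` for `f`: the points `y` such that the forward orbits of `x` and `y` are
asymptotic (for every neighbourhood `𝒰` of the diagonal, `fⁿ x` and `fⁿ y` are `𝒰`-close for all
large `n`). For an Anosov diffeomorphism `f` it is the leaf of the stable foliation through `x`; the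
leaf of the unstable foliation is `leaf f.symm x`. -/
def leaf {M : Type*} [TopologicalSpace M] (f : M → M) (x : M) : Set M :=
  {y | Tendsto (fun n : ℕ => (f^[n] x, f^[n] y)) atTop (𝓝ˢ (diagonal M))}

/-- The closure of the leaf of `x` is a minimal set of the foliation: it contains no smaller closure
of a leaf, i.e. `x` is in the closure of the leaf of each of its points. -/
def MinimalClosure {M : Type*} [TopologicalSpace M] (f : M → M) (x : M) : Prop :=
  ∀ y ∈ closure (leaf f x), x ∈ closure (leaf f y)

/-- **Transitivity is a property of the partition of the manifold by the closures of the stable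
leaves.** Let `f` be a `C¹` Anosov diffeomorphism of a closed connected smooth manifold `M`. The
following are equivalent.

1. `f` is topologically transitive.
2. The closures of the stable leaves form a partition of `M`: if `y` is in the closure of the leaf of
   `x` then `x` is in the closure of the leaf of `y`.
3. The same for periodic points `x`, `y` only.
4. The points whose leaf has a minimal closure are dense in some nonempty open set (equivalently, the
   union of the minimal sets of the stable foliation is somewhere dense).
5. Every stable leaf is dense in some nonempty open set.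

Moreover `f` is topologically transitive if the group of the homeomorphisms `φ` of `M` that map
stable leaves onto stable leaves acts minimally on `M` (for instance if it acts transitively, i.e. if
the stable foliation is topologically homogeneous); no relation between `φ` and `f` is assumed
otherwise.

(The statements for the unstable foliation are those for `f.symm`.) -/
theorem result (E : Type*) [NormedAddCommGroup E] [NormedSpace ℝ E] [FiniteDimensional ℝ E]
    (M : Type*) [TopologicalSpace M] [T2Space M] [CompactSpace M] [ConnectedSpace M]
    [ChartedSpace E M] [IsManifold 𝓘(ℝ, E) ∞ M] (f : Diffeomorph 𝓘(ℝ, E) 𝓘(ℝ, E) M M 1)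
    (Es Eu : ∀ x : M, Submodule ℝ (TangentSpace 𝓘(ℝ, E) x)) (hA : IsAnosov f Es Eu) :
    List.TFAE [TopTransitive f,
      ∀ x y, y ∈ closure (leaf f x) → x ∈ closure (leaf f y),
      ∀ x ∈ Function.periodicPts f, ∀ y ∈ Function.periodicPts f,
        y ∈ closure (leaf f x) → x ∈ closure (leaf f y),
      (interior (closure {x | MinimalClosure f x})).Nonempty,
      ∀ x, (interior (closure (leaf f x))).Nonempty] ∧
    ((∀ (x : M) (U : Set M), IsOpen U → U.Nonempty → ∃ φ : M ≃ₜ M,
      (∀ y z, z ∈ leaf f y ↔ φ z ∈ leaf f (φ y)) ∧ φ x ∈ U) → TopTransitive f) :=
  Pool.Agent.Run7.h934.AD.man_leaf f Es Eu hA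

end Pool.Agent.Results.MP_610fe3_an.LeafClosures
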